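import Pool.Agent.Q36.ColBin.Main

namespace Pool.Agent.Results.MP_918176_nt.EvenColours

open Pool.Agent.Q36.ColBin

/-- The formula for the 2-adic valuation of `c_{2k}(4n) - c_{2k}(n)` holds for all positive
`k` and `n`. -/
theorem result : ∀ k n : ℕ, 1 ≤ k → 1 ≤ n →
    emultiplicity (2 : ℤ) (c (2 * k) (4 * n) - c (2 * k) n) =
      ((padicValNat 2 n + 2 * padicValNat 2 k + 3 : ℕ) : ℕ∞) :=
  fun k n hk hn => even_main k n hk hn

end Pool.Agent.Results.MP_918176_nt.EvenColours
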