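import Pool.Agent.Q36.ColBin.OddM

namespace Pool.Agent.Results.MP_918176_nt.OddColours

open Pool.Agent.Q36.ColBin

/-- `v m n` is the 2-adic valuation of `c_m(4n) - c_m(n)` (infinite if the difference is `0`). -/
noncomputable def v (m n : ℕ) : ℕ∞ := emultiplicity (2 : ℤ) (c m (4 * n) - c m n)

/-- Both inequalities of Q2 hold for all `k` and `n ≥ 1`. In the first one equality holds for
infinitely many `n`, for every `k`. In the second one equality holds for infinitely many `n`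
exactly when `k` is not congruent to `3` modulo `4`; so the statement of Q2 is false. -/
theorem result :
    (∀ k n : ℕ, 1 ≤ n → ((padicValNat 2 n + 3 : ℕ) : ℕ∞) ≤ v (4 * k + 1) n) ∧
    (∀ k : ℕ, {n : ℕ | 1 ≤ n ∧ v (4 * k + 1) n = ((padicValNat 2 n + 3 : ℕ) : ℕ∞)}.Infinite) ∧
    (∀ k n : ℕ, 1 ≤ n → ((padicValNat 2 n + 6 : ℕ) : ℕ∞) ≤ v (4 * k + 3) n) ∧
    (∀ k : ℕ, {n : ℕ | 1 ≤ n ∧ v (4 * k + 3) n = ((padicValNat 2 n + 6 : ℕ) : ℕ∞)}.Infinite ↔
      k % 4 ≠ 3) ∧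
    ¬ (∀ k : ℕ,
      (∀ n : ℕ, 1 ≤ n → ((padicValNat 2 n + 3 : ℕ) : ℕ∞) ≤ v (4 * k + 1) n ∧
        ((padicValNat 2 n + 6 : ℕ) : ℕ∞) ≤ v (4 * k + 3) n) ∧
      {n : ℕ | 1 ≤ n ∧ v (4 * k + 1) n = ((padicValNat 2 n + 3 : ℕ) : ℕ∞)}.Infinite ∧
      {n : ℕ | 1 ≤ n ∧ v (4 * k + 3) n = ((padicValNat 2 n + 6 : ℕ) : ℕ∞)}.Infinite) := by
  have hA : ∀ k n : ℕ, 1 ≤ n → ((padicValNat 2 n + 3 : ℕ) : ℕ∞) ≤ v (4 * k + 1) n :=
    fun k n hn => ineq_one k n hn
  have hB : ∀ k : ℕ,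
      {n : ℕ | 1 ≤ n ∧ v (4 * k + 1) n = ((padicValNat 2 n + 3 : ℕ) : ℕ∞)}.Infinite := by
    intro k
    refine Set.infinite_of_injective_forall_mem (f := fun i : ℕ => 2 * i + 1) ?_ ?_
    · intro i j h; simp only at h; omega
    · intro i
      exact ⟨by omega, eq_one k _ ⟨i, rfl⟩⟩
  have hC : ∀ k n : ℕ, 1 ≤ n → ((padicValNat 2 n + 6 : ℕ) : ℕ∞) ≤ v (4 * k + 3) n :=
    fun k n hn => ineq_three k n hn
  have hD : ∀ k : ℕ,
      {n : ℕ | 1 ≤ n ∧ v (4 * k + 3) n = ((padicValNat 2 n + 6 : ℕ) : ℕ∞)}.Infinite ↔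
        k % 4 ≠ 3 := by
    intro k
    constructor
    · intro h hk
      obtain ⟨n, hn1, hn2⟩ := h.nonempty
      have h1 := strict_three k n hk hn1
      unfold v at hn2
      rw [hn2] at h1
      have h2 : padicValNat 2 n + 7 ≤ padicValNat 2 n + 6 := by exact_mod_cast h1
      omega
    · intro hk
      by_cases h2 : k % 2 = 0
      · refine Set.infinite_of_injective_forall_mem (f := fun i : ℕ => 2 ^ 1 * (2 * i + 1)) ?_ ?_
        · intro i j h; simp only at h; omega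
        · intro i
          exact ⟨by omega, eq_three_even k _ h2 ⟨i, rfl⟩⟩
      · refine Set.infinite_of_injective_forall_mem (f := fun i : ℕ => 2 * i + 1) ?_ ?_
        · intro i j h; simp only at h; omega
        · intro i
          exact ⟨by omega, eq_three_one k _ (by omega) ⟨i, rfl⟩⟩
  refine ⟨hA, hB, hC, hD, fun H => ?_⟩
  exact (hD 3).1 (H 3).2.2 rfl

end Pool.Agent.Results.MP_918176_nt.OddColours
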